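import Mathlib
import Pool.Agent.Lib.MP_f07f3c_an.Parovicenko

/-!
# An isometric embedding of `C(ℕ*)` with no canonization unless `ℵ₁ < 2 ^ ℵ₀`

The operator is composition with a continuous surjection of `ℕ*` dual to an embedding of a field
of subsets of `ℕ*` (generated by the clopen sets and one open set with no least clopen superset
below each clopen set) into the power set of `ℕ` modulo finite sets; under CH such an embedding
exists by Parovičenko's theorem.
-/

open scoped BoundedContinuousFunction

namespace Pool.Agent.Results.MP_f07f3c_an.NoCanonizationUnderCH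

/-- There is an isometric multiplicative embedding `T` of `C(ℕ*)` into itself for which the
existence of an infinite `A ⊆ ℕ`, a closed `F ⊆ ℕ*`, a homeomorphism `ψ` of `F` onto `A*` and a
real `r ≠ 0` with `T (f*) = r · f* ∘ ψ` on `F` for every `A`-supported `f` forces `ℵ₁ < 2 ^ ℵ₀`;
so under CH there is an isometric embedding with no such quadruple. -/
theorem result (X : Set (StoneCech ℕ))
    (hX : X = (Set.range (stoneCechUnit : ℕ → StoneCech ℕ))ᶜ) :
    ∃ T : (X →ᵇ ℝ) →L[ℝ] (X →ᵇ ℝ), (∀ f, ‖T f‖ = ‖f‖) ∧ (∀ f g, T (f * g) = T f * T g) ∧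
      ((∃ (A : Set ℕ) (F : Set X) (r : ℝ), A.Infinite ∧ IsClosed F ∧ r ≠ 0 ∧
        ∃ ψ : F ≃ₜ {x : X | (x.1 : StoneCech ℕ) ∈
            closure ((stoneCechUnit : ℕ → StoneCech ℕ) '' A)},
          ∀ G : C(StoneCech ℕ, ℝ),
            (∀ n : ℕ, n ∉ A → G (stoneCechUnit n) = 0) →
            ∀ x : F,
              T ((BoundedContinuousFunction.mkOfCompact G).compContinuous
                  ⟨Subtype.val, continuous_subtype_val⟩) x.1
                = r * G ((ψ x).1).1) →
        Cardinal.aleph.{0} 1 < Cardinal.continuum.{0}) := by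
  rcases Cardinal.aleph_one_le_continuum.lt_or_eq with h | h
  · exact ⟨ContinuousLinearMap.id ℝ _, fun f => rfl, fun f g => rfl, fun _ => h⟩
  · obtain ⟨T, h1, h2, h3⟩ := Pool.Agent.Lib.MP_f07f3c_an.main h X hX
    exact ⟨T, h1, h2, fun h4 => (h3 h4).elim⟩

end Pool.Agent.Results.MP_f07f3c_an.NoCanonizationUnderCH
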